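import Pool.Agent.Lib.MP_e1ba52_h62.Hex

set_option autoImplicit false

namespace Pool.Agent.Lib.H62Crit

open Pool.Agent.Lib.H76Crit

/-- The lower right triangle of cells without three cells. -/
def WA (n a b : ℤ) : Prop := a ≤ n - 1 ∧ b ≤ n - 1 ∧ n - 1 ≤ a + b ∧ ¬ (a = n - 4 ∧ b = 4) ∧
  ¬ (a = n - 4 ∧ b = 5) ∧ ¬ (a = n - 3 ∧ b = 3)

theorem fa1_0 (n : ℤ) (hn : 9 ≤ n) :
    Tri (1) 0 (-((1) + 0 + n)) fun a b _ => WA n a b := by
  exact (trap (1) (0) (-((1) + (0) + (n))) (2) ((0) + (2) + 2 * (2))
        (by omega) (by omega) (by omega)).mono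
        fun a b d _ j => by unfold Cl at j; unfold WA; omega

theorem fa2_0 (n : ℤ) (hn : 9 ≤ n) :
    Tri (2) 0 (-((2) + 0 + n)) fun a b _ => WA n a b := by
  exact (trap (2) (0) (-((2) + (0) + (n))) (3) ((0) + (3) + (3))
        (by omega) (by omega) (by omega)).mono
        fun a b d _ j => by unfold Cl at j; unfold WA; omega

theorem fa3_0 (n : ℤ) (hn : 9 ≤ n) :
    Tri (3) 0 (-((3) + 0 + n)) fun a b _ => WA n a b := by
  by_cases h : 12 ≤ n
  · exact (trap (3) (0) (-((3) + (0) + (n))) (4) ((0) + (4) + (4))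
        (by omega) (by omega) (by omega)).mono
        fun a b d _ j => by unfold Cl at j; unfold WA; omega
  have h1 : n = 9 ∨ n = 10 ∨ n = 11 := by omega
  rcases h1 with rfl | rfl | rfl
  · exact (trap (0) (3) (-((3) + (0) + (9))) (4) ((3) + (4))
        (by omega) (by omega) (by omega)).s12.mono
        fun a b d _ j => by unfold Cl at j; unfold WA; omega
  · exact (hex (0) (3) (-((3) + (0) + (10))) (4) (1) ((3) + (1) + (4))
        (by omega) (by omega) (by omega) (by omega)).s12.mono
        fun a b d _ j => by unfold Cl at j; unfold WA; omega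
  · exact (hex (0) (3) (-((3) + (0) + (11))) (4) (2) ((3) + (2) + (4))
        (by omega) (by omega) (by omega) (by omega)).s12.mono
        fun a b d _ j => by unfold Cl at j; unfold WA; omega

theorem fa4_0 (n : ℤ) (hn : 9 ≤ n) :
    Tri (4) 0 (-((4) + 0 + n)) fun a b _ => WA n a b := by
  by_cases h : 15 ≤ n
  · exact (trap (4) (0) (-((4) + (0) + (n))) (5) ((0) + (5) + (5))
        (by omega) (by omega) (by omega)).mono
        fun a b d _ j => by unfold Cl at j; unfold WA; omega
  have h1 : n = 9 ∨ n = 10 ∨ n = 11 ∨ n = 12 ∨ n = 13 ∨ n = 14 := by omega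
  rcases h1 with rfl | rfl | rfl | rfl | rfl | rfl
  · exact (hex (0) (-((4) + (0) + (9))) (4) (4) (1) ((-((4) + (0) + (9))) + (1) + (4))
        (by omega) (by omega) (by omega) (by omega)).s23.s12.mono
        fun a b d _ j => by unfold Cl at j; unfold WA; omega
  · exact (trap (0) (4) (-((4) + (0) + (10))) (5) ((4) + (5))
        (by omega) (by omega) (by omega)).s12.mono
        fun a b d _ j => by unfold Cl at j; unfold WA; omega
  · exact (trap (0) (4) (-((4) + (0) + (11))) (5) ((4) + (5))
        (by omega) (by omega) (by omega)).s12.mono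
        fun a b d _ j => by unfold Cl at j; unfold WA; omega
  · exact (hex (0) (4) (-((4) + (0) + (12))) (5) (1) ((4) + (1) + (5))
        (by omega) (by omega) (by omega) (by omega)).s12.mono
        fun a b d _ j => by unfold Cl at j; unfold WA; omega
  · exact (hex (0) (4) (-((4) + (0) + (13))) (5) (2) ((4) + (2) + (5))
        (by omega) (by omega) (by omega) (by omega)).s12.mono
        fun a b d _ j => by unfold Cl at j; unfold WA; omega
  · exact (hex (0) (4) (-((4) + (0) + (14))) (5) (3) ((4) + (3) + (5))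
        (by omega) (by omega) (by omega) (by omega)).s12.mono
        fun a b d _ j => by unfold Cl at j; unfold WA; omega

theorem fa0_1 (n : ℤ) (hn : 9 ≤ n) :
    Tri (0) 1 (-((0) + 1 + n)) fun a b _ => WA n a b := by
  exact (hex (0) (1) (-((0) + (1) + (n))) (2) (1) ((1) + (1) + (2) + (2))
        (by omega) (by omega) (by omega) (by omega)).mono
        fun a b d _ j => by unfold Cl at j; unfold WA; omega

theorem fa1_1 (n : ℤ) (hn : 9 ≤ n) :
    Tri (1) 1 (-((1) + 1 + n)) fun a b _ => WA n a b := by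
  exact (trap (1) (1) (-((1) + (1) + (n))) (3) ((1) + (3) + (3))
        (by omega) (by omega) (by omega)).mono
        fun a b d _ j => by unfold Cl at j; unfold WA; omega

theorem fa2_1 (n : ℤ) (hn : 9 ≤ n) :
    Tri (2) 1 (-((2) + 1 + n)) fun a b _ => WA n a b := by
  by_cases h : 12 ≤ n
  · exact (trap (2) (1) (-((2) + (1) + (n))) (4) ((1) + (4) + (4))
        (by omega) (by omega) (by omega)).mono
        fun a b d _ j => by unfold Cl at j; unfold WA; omega
  have h1 : n = 9 ∨ n = 10 ∨ n = 11 := by omega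
  rcases h1 with rfl | rfl | rfl
  · exact (hex (1) (2) (-((2) + (1) + (9))) (3) (2) ((2) + (2) + (3))
        (by omega) (by omega) (by omega) (by omega)).s12.mono
        fun a b d _ j => by unfold Cl at j; unfold WA; omega
  · exact (trap (1) (2) (-((2) + (1) + (10))) (3) ((2) + (3) + (3))
        (by omega) (by omega) (by omega)).s12.mono
        fun a b d _ j => by unfold Cl at j; unfold WA; omega
  · exact (hex (1) (2) (-((2) + (1) + (11))) (4) (3) ((2) + (3) + (4))
        (by omega) (by omega) (by omega) (by omega)).s12.mono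
        fun a b d _ j => by unfold Cl at j; unfold WA; omega

theorem fa0_2 (n : ℤ) (hn : 9 ≤ n) :
    Tri (0) 2 (-((0) + 2 + n)) fun a b _ => WA n a b := by
  exact (trap (0) (2) (-((0) + (2) + (n))) (3) ((2) + (3) + (3))
        (by omega) (by omega) (by omega)).mono
        fun a b d _ j => by unfold Cl at j; unfold WA; omega

theorem fr2_0 (n : ℤ) (hn : 9 ≤ n) :
    Tri (n - 2) 0 (-((n - 2) + 0 + n)) fun a b _ => WA n a b := by
  exact (trap (-((n - 2) + (0) + (n))) (0) (n - 2) (1) ((0) + (1))
        (by omega) (by omega) (by omega)).s12.s23.s12.mono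
        fun a b d _ j => by unfold Cl at j; unfold WA; omega

theorem fr3_0 (n : ℤ) (hn : 9 ≤ n) :
    Tri (n - 3) 0 (-((n - 3) + 0 + n)) fun a b _ => WA n a b := by
  exact (trap (-((n - 3) + (0) + (n))) (0) (n - 3) (2) ((0) + (2) + (2))
        (by omega) (by omega) (by omega)).s12.s23.s12.mono
        fun a b d _ j => by unfold Cl at j; unfold WA; omega

theorem fr4_0 (n : ℤ) (hn : 9 ≤ n) :
    Tri (n - 4) 0 (-((n - 4) + 0 + n)) fun a b _ => WA n a b := by
  exact (trap (-((n - 4) + (0) + (n))) (0) (n - 4) (3) ((0) + (3) + (3))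
        (by omega) (by omega) (by omega)).s12.s23.s12.mono
        fun a b d _ j => by unfold Cl at j; unfold WA; omega

theorem fr5_0 (n : ℤ) (hn : 9 ≤ n) :
    Tri (n - 5) 0 (-((n - 5) + 0 + n)) fun a b _ => WA n a b := by
  by_cases h : 12 ≤ n
  · exact (trap (-((n - 5) + (0) + (n))) (0) (n - 5) (4) ((0) + (4) + (4))
        (by omega) (by omega) (by omega)).s12.s23.s12.mono
        fun a b d _ j => by unfold Cl at j; unfold WA; omega
  have h1 : n = 9 ∨ n = 10 ∨ n = 11 := by omega
  rcases h1 with rfl | rfl | rfl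
  · exact (hex (0) (-((9 - 5) + (0) + (9))) (9 - 5) (4) (1) ((-((9 - 5) + (0) + (9))) + (1) + (4))
        (by omega) (by omega) (by omega) (by omega)).s23.s12.mono
        fun a b d _ j => by unfold Cl at j; unfold WA; omega
  · exact (hex (0) (-((10 - 5) + (0) + (10))) (10 - 5) (4) (2) ((-((10 - 5) + (0) + (10))) + (2) + (4))
        (by omega) (by omega) (by omega) (by omega)).s23.s12.mono
        fun a b d _ j => by unfold Cl at j; unfold WA; omega
  · exact (hex (0) (-((11 - 5) + (0) + (11))) (11 - 5) (4) (3) ((-((11 - 5) + (0) + (11))) + (3) + (4))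
        (by omega) (by omega) (by omega) (by omega)).s23.s12.mono
        fun a b d _ j => by unfold Cl at j; unfold WA; omega

theorem fr6_0 (n : ℤ) (hn : 9 ≤ n) :
    Tri (n - 6) 0 (-((n - 6) + 0 + n)) fun a b _ => WA n a b := by
  by_cases h : 15 ≤ n
  · exact (trap (-((n - 6) + (0) + (n))) (0) (n - 6) (5) ((0) + (5) + (5))
        (by omega) (by omega) (by omega)).s12.s23.s12.mono
        fun a b d _ j => by unfold Cl at j; unfold WA; omega
  have h1 : n = 9 ∨ n = 10 ∨ n = 11 ∨ n = 12 ∨ n = 13 ∨ n = 14 := by omega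
  rcases h1 with rfl | rfl | rfl | rfl | rfl | rfl
  · exact (trap (0) (9 - 6) (-((9 - 6) + (0) + (9))) (4) ((9 - 6) + (4))
        (by omega) (by omega) (by omega)).s12.mono
        fun a b d _ j => by unfold Cl at j; unfold WA; omega
  · exact (trap (0) (10 - 6) (-((10 - 6) + (0) + (10))) (5) ((10 - 6) + (5))
        (by omega) (by omega) (by omega)).s12.mono
        fun a b d _ j => by unfold Cl at j; unfold WA; omega
  · exact (hex (0) (-((11 - 6) + (0) + (11))) (11 - 6) (5) (1) ((-((11 - 6) + (0) + (11))) + (1) + (5))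
        (by omega) (by omega) (by omega) (by omega)).s23.s12.mono
        fun a b d _ j => by unfold Cl at j; unfold WA; omega
  · exact (hex (0) (-((12 - 6) + (0) + (12))) (12 - 6) (5) (2) ((-((12 - 6) + (0) + (12))) + (2) + (5))
        (by omega) (by omega) (by omega) (by omega)).s23.s12.mono
        fun a b d _ j => by unfold Cl at j; unfold WA; omega
  · exact (hex (0) (-((13 - 6) + (0) + (13))) (13 - 6) (5) (3) ((-((13 - 6) + (0) + (13))) + (3) + (5))
        (by omega) (by omega) (by omega) (by omega)).s23.s12.mono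
        fun a b d _ j => by unfold Cl at j; unfold WA; omega
  · exact (hex (0) (-((14 - 6) + (0) + (14))) (14 - 6) (5) (4) ((-((14 - 6) + (0) + (14))) + (4) + (5))
        (by omega) (by omega) (by omega) (by omega)).s23.s12.mono
        fun a b d _ j => by unfold Cl at j; unfold WA; omega

theorem fr3_1 (n : ℤ) (hn : 9 ≤ n) :
    Tri (n - 3) 1 (-((n - 3) + 1 + n)) fun a b _ => WA n a b := by
  exact (hex (-((n - 3) + (1) + (n))) (1) (n - 3) (2) (1) ((1) + (1) + (2))
        (by omega) (by omega) (by omega) (by omega)).s12.s23.s12.mono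
        fun a b d _ j => by unfold Cl at j; unfold WA; omega

theorem fr4_1 (n : ℤ) (hn : 9 ≤ n) :
    Tri (n - 4) 1 (-((n - 4) + 1 + n)) fun a b _ => WA n a b := by
  exact (hex (-((n - 4) + (1) + (n))) (1) (n - 4) (3) (2) ((1) + (2) + (3))
        (by omega) (by omega) (by omega) (by omega)).s12.s23.s12.mono
        fun a b d _ j => by unfold Cl at j; unfold WA; omega

theorem fr5_1 (n : ℤ) (hn : 9 ≤ n) :
    Tri (n - 5) 1 (-((n - 5) + 1 + n)) fun a b _ => WA n a b := by
  exact (trap (-((n - 5) + (1) + (n))) (1) (n - 5) (3) ((1) + (3) + (3))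
        (by omega) (by omega) (by omega)).s12.s23.s12.mono
        fun a b d _ j => by unfold Cl at j; unfold WA; omega

theorem fr6_1 (n : ℤ) (hn : 9 ≤ n) :
    Tri (n - 6) 1 (-((n - 6) + 1 + n)) fun a b _ => WA n a b := by
  by_cases h : 10 ≤ n
  · exact (trap (-((n - 6) + (1) + (n))) (1) (n - 6) (5) ((1) + (5))
        (by omega) (by omega) (by omega)).s12.s23.s12.mono
        fun a b d _ j => by unfold Cl at j; unfold WA; omega
  have h1 : n = 9 := by omega
  rcases h1 with rfl
  · exact (trap (1) (9 - 6) (-((9 - 6) + (1) + (9))) (4) ((9 - 6) + (4))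
        (by omega) (by omega) (by omega)).s12.mono
        fun a b d _ j => by unfold Cl at j; unfold WA; omega

theorem fr5_2 (n : ℤ) (hn : 9 ≤ n) :
    Tri (n - 5) 2 (-((n - 5) + 2 + n)) fun a b _ => WA n a b := by
  exact (trap (-((n - 5) + (2) + (n))) (2) (n - 5) (4) ((2) + (4))
        (by omega) (by omega) (by omega)).s12.s23.s12.mono
        fun a b d _ j => by unfold Cl at j; unfold WA; omega

theorem fr6_2 (n : ℤ) (hn : 9 ≤ n) :
    Tri (n - 6) 2 (-((n - 6) + 2 + n)) fun a b _ => WA n a b := by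
  exact (trap (-((n - 6) + (2) + (n))) (2) (n - 6) (4) ((2) + (4))
        (by omega) (by omega) (by omega)).s12.s23.s12.mono
        fun a b d _ j => by unfold Cl at j; unfold WA; omega

theorem fr5_3 (n : ℤ) (hn : 9 ≤ n) :
    Tri (n - 5) 3 (-((n - 5) + 3 + n)) fun a b _ => WA n a b := by
  exact (trap (-((n - 5) + (3) + (n))) (3) (n - 5) (4) ((3) + (4))
        (by omega) (by omega) (by omega)).s12.s23.s12.mono
        fun a b d _ j => by unfold Cl at j; unfold WA; omega

theorem fr6_3 (n : ℤ) (hn : 9 ≤ n) :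
    Tri (n - 6) 3 (-((n - 6) + 3 + n)) fun a b _ => WA n a b := by
  exact (trap (-((n - 6) + (3) + (n))) (3) (n - 6) (4) ((3) + (4))
        (by omega) (by omega) (by omega)).s12.s23.s12.mono
        fun a b d _ j => by unfold Cl at j; unfold WA; omega

theorem fr7_3 (n : ℤ) (hn : 9 ≤ n) :
    Tri (n - 7) 3 (-((n - 7) + 3 + n)) fun a b _ => WA n a b := by
  by_cases h : 10 ≤ n
  · exact (trap (-((n - 7) + (3) + (n))) (3) (n - 7) (5) ((3) + (5))
        (by omega) (by omega) (by omega)).s12.s23.s12.mono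
        fun a b d _ j => by unfold Cl at j; unfold WA; omega
  have h1 : n = 9 := by omega
  rcases h1 with rfl
  · exact (trap (9 - 7) (3) (-((9 - 7) + (3) + (9))) (4) ((3) + (4))
        (by omega) (by omega) (by omega)).mono
        fun a b d _ j => by unfold Cl at j; unfold WA; omega

theorem fr6_4 (n : ℤ) (hn : 9 ≤ n) :
    Tri (n - 6) 4 (-((n - 6) + 4 + n)) fun a b _ => WA n a b := by
  by_cases h : 10 ≤ n
  · exact (trap (-((n - 6) + (4) + (n))) (4) (n - 6) (5) ((4) + (5))
        (by omega) (by omega) (by omega)).s12.s23.s12.mono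
        fun a b d _ j => by unfold Cl at j; unfold WA; omega
  have h1 : n = 9 := by omega
  rcases h1 with rfl
  · exact (trap (9 - 6) (-((9 - 6) + (4) + (9))) (4) (4) ((-((9 - 6) + (4) + (9))) + (4))
        (by omega) (by omega) (by omega)).s23.mono
        fun a b d _ j => by unfold Cl at j; unfold WA; omega

theorem fr7_4 (n : ℤ) (hn : 9 ≤ n) :
    Tri (n - 7) 4 (-((n - 7) + 4 + n)) fun a b _ => WA n a b := by
  by_cases h : 10 ≤ n
  · exact (trap (-((n - 7) + (4) + (n))) (4) (n - 7) (5) ((4) + (5))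
        (by omega) (by omega) (by omega)).s12.s23.s12.mono
        fun a b d _ j => by unfold Cl at j; unfold WA; omega
  have h1 : n = 9 := by omega
  rcases h1 with rfl
  · exact (trap (-((9 - 7) + (4) + (9))) (9 - 7) (4) (4) ((9 - 7) + (4))
        (by omega) (by omega) (by omega)).s12.s23.mono
        fun a b d _ j => by unfold Cl at j; unfold WA; omega

theorem fr8_4 (n : ℤ) (hn : 9 ≤ n) :
    Tri (n - 8) 4 (-((n - 8) + 4 + n)) fun a b _ => WA n a b := by
  by_cases h : 10 ≤ n
  · exact (trap (-((n - 8) + (4) + (n))) (4) (n - 8) (5) ((4) + (5))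
        (by omega) (by omega) (by omega)).s12.s23.s12.mono
        fun a b d _ j => by unfold Cl at j; unfold WA; omega
  have h1 : n = 9 := by omega
  rcases h1 with rfl
  · exact (trap (9 - 8) (-((9 - 8) + (4) + (9))) (4) (3) ((-((9 - 8) + (4) + (9))) + (3) + (3))
        (by omega) (by omega) (by omega)).s23.mono
        fun a b d _ j => by unfold Cl at j; unfold WA; omega

theorem fr9_4 (n : ℤ) (hn : 9 ≤ n) :
    Tri (n - 9) 4 (-((n - 9) + 4 + n)) fun a b _ => WA n a b := by
  by_cases h : 12 ≤ n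
  · exact (trap (-((n - 9) + (4) + (n))) (4) (n - 9) (6) ((4) + (6))
        (by omega) (by omega) (by omega)).s12.s23.s12.mono
        fun a b d _ j => by unfold Cl at j; unfold WA; omega
  have h1 : n = 9 ∨ n = 10 ∨ n = 11 := by omega
  rcases h1 with rfl | rfl | rfl
  · exact (hex (9 - 9) (-((9 - 9) + (4) + (9))) (4) (4) (1) ((-((9 - 9) + (4) + (9))) + (1) + (4))
        (by omega) (by omega) (by omega) (by omega)).s23.mono
        fun a b d _ j => by unfold Cl at j; unfold WA; omega
  · exact (hex (10 - 9) (-((10 - 9) + (4) + (10))) (4) (4) (2) ((-((10 - 9) + (4) + (10))) + (2) + (4))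
        (by omega) (by omega) (by omega) (by omega)).s23.mono
        fun a b d _ j => by unfold Cl at j; unfold WA; omega
  · exact (trap (11 - 9) (4) (-((11 - 9) + (4) + (11))) (5) ((4) + (5))
        (by omega) (by omega) (by omega)).mono
        fun a b d _ j => by unfold Cl at j; unfold WA; omega

theorem fr7_5 (n : ℤ) (hn : 9 ≤ n) :
    Tri (n - 7) 5 (-((n - 7) + 5 + n)) fun a b _ => WA n a b := by
  by_cases h : 12 ≤ n
  · exact (trap (-((n - 7) + (5) + (n))) (5) (n - 7) (6) ((5) + (6))
        (by omega) (by omega) (by omega)).s12.s23.s12.mono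
        fun a b d _ j => by unfold Cl at j; unfold WA; omega
  have h1 : n = 9 ∨ n = 10 ∨ n = 11 := by omega
  rcases h1 with rfl | rfl | rfl
  · exact (hex (-((9 - 7) + (5) + (9))) (9 - 7) (5) (3) (1) ((9 - 7) + (1) + (3))
        (by omega) (by omega) (by omega) (by omega)).s12.s23.mono
        fun a b d _ j => by unfold Cl at j; unfold WA; omega
  · exact (trap (10 - 7) (-((10 - 7) + (5) + (10))) (5) (4) ((-((10 - 7) + (5) + (10))) + (4))
        (by omega) (by omega) (by omega)).s23.mono
        fun a b d _ j => by unfold Cl at j; unfold WA; omega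
  · exact (trap (11 - 7) (-((11 - 7) + (5) + (11))) (5) (5) ((-((11 - 7) + (5) + (11))) + (5))
        (by omega) (by omega) (by omega)).s23.mono
        fun a b d _ j => by unfold Cl at j; unfold WA; omega

theorem fr8_5 (n : ℤ) (hn : 9 ≤ n) :
    Tri (n - 8) 5 (-((n - 8) + 5 + n)) fun a b _ => WA n a b := by
  by_cases h : 12 ≤ n
  · exact (trap (-((n - 8) + (5) + (n))) (5) (n - 8) (6) ((5) + (6))
        (by omega) (by omega) (by omega)).s12.s23.s12.mono
        fun a b d _ j => by unfold Cl at j; unfold WA; omega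
  have h1 : n = 9 ∨ n = 10 ∨ n = 11 := by omega
  rcases h1 with rfl | rfl | rfl
  · exact (trap (9 - 8) (-((9 - 8) + (5) + (9))) (5) (3) ((-((9 - 8) + (5) + (9))) + (3) + (3))
        (by omega) (by omega) (by omega)).s23.mono
        fun a b d _ j => by unfold Cl at j; unfold WA; omega
  · exact (trap (-((10 - 8) + (5) + (10))) (10 - 8) (5) (3) ((10 - 8) + (3) + (3))
        (by omega) (by omega) (by omega)).s12.s23.mono
        fun a b d _ j => by unfold Cl at j; unfold WA; omega
  · exact (trap (11 - 8) (-((11 - 8) + (5) + (11))) (5) (5) ((-((11 - 8) + (5) + (11))) + (5))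
        (by omega) (by omega) (by omega)).s23.mono
        fun a b d _ j => by unfold Cl at j; unfold WA; omega

theorem fr9_5 (n : ℤ) (hn : 9 ≤ n) :
    Tri (n - 9) 5 (-((n - 9) + 5 + n)) fun a b _ => WA n a b := by
  by_cases h : 12 ≤ n
  · exact (trap (-((n - 9) + (5) + (n))) (5) (n - 9) (6) ((5) + (6))
        (by omega) (by omega) (by omega)).s12.s23.s12.mono
        fun a b d _ j => by unfold Cl at j; unfold WA; omega
  have h1 : n = 9 ∨ n = 10 ∨ n = 11 := by omega
  rcases h1 with rfl | rfl | rfl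
  · exact (trap (9 - 9) (-((9 - 9) + (5) + (9))) (5) (3) ((-((9 - 9) + (5) + (9))) + (3) + (3))
        (by omega) (by omega) (by omega)).s23.mono
        fun a b d _ j => by unfold Cl at j; unfold WA; omega
  · exact (trap (10 - 9) (-((10 - 9) + (5) + (10))) (5) (3) ((-((10 - 9) + (5) + (10))) + (3) + (3))
        (by omega) (by omega) (by omega)).s23.mono
        fun a b d _ j => by unfold Cl at j; unfold WA; omega
  · exact (trap (-((11 - 9) + (5) + (11))) (11 - 9) (5) (3) ((11 - 9) + (3) + (3))
        (by omega) (by omega) (by omega)).s12.s23.mono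
        fun a b d _ j => by unfold Cl at j; unfold WA; omega

theorem fr10_5 (n : ℤ) (hn : 10 ≤ n) :
    Tri (n - 10) 5 (-((n - 10) + 5 + n)) fun a b _ => WA n a b := by
  by_cases h : 14 ≤ n
  · exact (trap (-((n - 10) + (5) + (n))) (5) (n - 10) (7) ((5) + (7))
        (by omega) (by omega) (by omega)).s12.s23.s12.mono
        fun a b d _ j => by unfold Cl at j; unfold WA; omega
  have h1 : n = 10 ∨ n = 11 ∨ n = 12 ∨ n = 13 := by omega
  rcases h1 with rfl | rfl | rfl | rfl
  · exact (hex (10 - 10) (-((10 - 10) + (5) + (10))) (5) (4) (1) ((-((10 - 10) + (5) + (10))) + (1) + (4))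
        (by omega) (by omega) (by omega) (by omega)).s23.mono
        fun a b d _ j => by unfold Cl at j; unfold WA; omega
  · exact (hex (11 - 10) (-((11 - 10) + (5) + (11))) (5) (4) (2) ((-((11 - 10) + (5) + (11))) + (2) + (4))
        (by omega) (by omega) (by omega) (by omega)).s23.mono
        fun a b d _ j => by unfold Cl at j; unfold WA; omega
  · exact (trap (12 - 10) (-((12 - 10) + (5) + (12))) (5) (4) ((-((12 - 10) + (5) + (12))) + (4) + (4))
        (by omega) (by omega) (by omega)).s23.mono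
        fun a b d _ j => by unfold Cl at j; unfold WA; omega
  · exact (trap (13 - 10) (5) (-((13 - 10) + (5) + (13))) (6) ((5) + (6))
        (by omega) (by omega) (by omega)).mono
        fun a b d _ j => by unfold Cl at j; unfold WA; omega

theorem fr11_5 (n : ℤ) (hn : 11 ≤ n) :
    Tri (n - 11) 5 (-((n - 11) + 5 + n)) fun a b _ => WA n a b := by
  by_cases h : 12 ≤ n
  · exact (trap (-((n - 11) + (5) + (n))) (5) (n - 11) (6) ((5) + (6))
        (by omega) (by omega) (by omega)).s12.s23.s12.mono
        fun a b d _ j => by unfold Cl at j; unfold WA; omega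
  have h1 : n = 11 := by omega
  rcases h1 with rfl
  · exact (trap (11 - 11) (-((11 - 11) + (5) + (11))) (5) (5) ((-((11 - 11) + (5) + (11))) + (5))
        (by omega) (by omega) (by omega)).s23.mono
        fun a b d _ j => by unfold Cl at j; unfold WA; omega

theorem cover (n r c : ℤ) (hn : 9 ≤ n) (hr : 0 ≤ r) (hc : 0 ≤ c) (h : r + c ≤ n - 2)
    (b1 : ¬ (r = 0 ∧ c = 0)) (b2 : ¬ (r = n - 4 ∧ c = 2)) :
    Tri r c (-(r + c + n)) fun a b _ => WA n a b := by
  by_cases c1 : 6 ≤ c
  · clear b1 b2
    by_cases c2 : r ≤ n - 2 - r - c ∧ c ≤ n - 2 - r - c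
    · exact (trap (r) (c) (-((r) + (c) + (n))) (1 + max r c) ((c) + (1 + max r c))
        (by omega) (by omega) (by omega)).mono
        fun a b d _ j => by unfold Cl at j; unfold WA; omega
    by_cases c3 : c ≤ r
    · exact (trap (-((r) + (c) + (n))) (c) (r) (1 + max (n - 2 - r - c) c) ((c) + (1 + max (n - 2 - r - c) c))
        (by omega) (by omega) (by omega)).s12.s23.s12.mono
        fun a b d _ j => by unfold Cl at j; unfold WA; omega
    · exact (trap (r) (-((r) + (c) + (n))) (c) (1 + max (n - 2 - r - c) r) ((-((r) + (c) + (n))) + (1 + max (n - 2 - r - c) r))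
        (by omega) (by omega) (by omega)).s23.mono
        fun a b d _ j => by unfold Cl at j; unfold WA; omega
  by_cases c2 : r + c ≤ n - 2 - r - c ∧ 5 ≤ r + 2 * c
  · clear b1 b2
    exact (trap (r) (c) (-((r) + (c) + (n))) (r + c + 1) ((c) + (r + c + 1))
        (by omega) (by omega) (by omega)).mono
        fun a b d _ j => by unfold Cl at j; unfold WA; omega
  by_cases c3 : c ≤ n - 2 - r - c ∧ n - 2 - r - c ≤ r + c ∧ r ≤ n - 7
  · clear b1 b2 c2
    exact (trap (-((r) + (c) + (n))) (c) (r) (n - 1 - r - c) ((c) + (n - 1 - r - c))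
        (by omega) (by omega) (by omega)).s12.s23.s12.mono
        fun a b d _ j => by unfold Cl at j; unfold WA; omega
  have c4 : c = 0 ∨ c = 1 ∨ c = 2 ∨ c = 3 ∨ c = 4 ∨ c = 5 := by omega
  rcases c4 with rfl | rfl | rfl | rfl | rfl | rfl
  · have c5 : r = 1 ∨ r = 2 ∨ r = 3 ∨ r = 4 ∨ r = n - 2 ∨ r = n - 3 ∨ r = n - 4 ∨ r = n - 5 ∨ r = n - 6 := by omega
    rcases c5 with rfl | rfl | rfl | rfl | rfl | rfl | rfl | rfl | rfl
    exacts [fa1_0 n (by omega), fa2_0 n (by omega), fa3_0 n (by omega), fa4_0 n (by omega), fr2_0 n (by omega), fr3_0 n (by omega), fr4_0 n (by omega), fr5_0 n (by omega), fr6_0 n (by omega)]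
  · have c5 : r = 0 ∨ r = 1 ∨ r = 2 ∨ r = n - 3 ∨ r = n - 4 ∨ r = n - 5 ∨ r = n - 6 := by omega
    rcases c5 with rfl | rfl | rfl | rfl | rfl | rfl | rfl
    exacts [fa0_1 n (by omega), fa1_1 n (by omega), fa2_1 n (by omega), fr3_1 n (by omega), fr4_1 n (by omega), fr5_1 n (by omega), fr6_1 n (by omega)]
  · have c5 : r = 0 ∨ r = n - 5 ∨ r = n - 6 := by omega
    rcases c5 with rfl | rfl | rfl
    exacts [fa0_2 n (by omega), fr5_2 n (by omega), fr6_2 n (by omega)]
  · have c5 : r = n - 5 ∨ r = n - 6 ∨ r = n - 7 := by omega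
    rcases c5 with rfl | rfl | rfl
    exacts [fr5_3 n (by omega), fr6_3 n (by omega), fr7_3 n (by omega)]
  · have c5 : r = n - 6 ∨ r = n - 7 ∨ r = n - 8 ∨ r = n - 9 := by omega
    rcases c5 with rfl | rfl | rfl | rfl
    exacts [fr6_4 n (by omega), fr7_4 n (by omega), fr8_4 n (by omega), fr9_4 n (by omega)]
  · have c5 : r = n - 7 ∨ r = n - 8 ∨ r = n - 9 ∨ r = n - 10 ∨ r = n - 11 := by omega
    rcases c5 with rfl | rfl | rfl | rfl | rfl
    exacts [fr7_5 n (by omega), fr8_5 n (by omega), fr9_5 n (by omega), fr10_5 n (by omega), fr11_5 n (by omega)]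

theorem cover_a1 (n : ℤ) (hn : 9 ≤ n) : Tri (n - 4) 2 (-((n - 4) + 2 + n))
    fun a b _ => WA n a b ∨ (a = n - 4 ∧ b = 5) := by
  exact (trap (-((n - 4) + (2) + (n))) (2) (n - 4) (3) ((2) + (3))
        (by omega) (by omega) (by omega)).s12.s23.s12.mono
        fun a b d _ j => by unfold Cl at j; unfold WA; omega

theorem cover_a2 (n : ℤ) (hn : 9 ≤ n) : Tri (n - 4) 2 (-((n - 4) + 2 + n))
    fun a b _ => WA n a b ∨ (a = n - 4 ∧ b = 4) := by
  exact (hex (-((n - 4) + (2) + (n))) (2) (n - 4) (3) (2) ((2) + (2) + (3))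
        (by omega) (by omega) (by omega) (by omega)).s12.s23.s12.mono
        fun a b d _ j => by unfold Cl at j; unfold WA; omega

theorem cover_a3 (n : ℤ) (hn : 9 ≤ n) : Tri (n - 4) 2 (-((n - 4) + 2 + n))
    fun a b _ => WA n a b ∨ (a = n - 3 ∧ b = 3) := by
  exact (hex (-((n - 4) + (2) + (n))) (2) (n - 4) (3) (1) ((2) + (1) + (3))
        (by omega) (by omega) (by omega) (by omega)).s12.s23.s12.mono
        fun a b d _ j => by unfold Cl at j; unfold WA; omega

end Pool.Agent.Lib.H62Crit
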