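import Pool.Agent.Lib.MP_e1ba52_h62.Cover
import Pool.Agent.Lib.MP_e1ba52_h76.Latin

set_option autoImplicit false

namespace Pool.Agent.Lib.H62Crit

open Pool.Agent.Lib.H76Crit

theorem cast_inj {n : ℕ} {a b : ℤ} (h : (a : ZMod n) = b) (h1 : a - b < n) (h2 : b - a < n) :
    a = b := by
  obtain ⟨i, hi⟩ := (ZMod.intCast_eq_intCast_iff_dvd_sub a b n).1 h
  rcases lt_trichotomy i 0 with h0 | h0 | h0
  · nlinarith
  · subst h0; omega
  · nlinarith

/-- A dissected triangle gives a second latin square. -/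
theorem sat {n : ℕ} [NeZero n] (r c : ℤ) (R : ℤ → ℤ → Prop) (hr : 0 ≤ r) (hc : 0 ≤ c)
    (h : r + c ≤ n - 2) (hR : ∀ a b, R a b → a ≤ n - 1 ∧ b ≤ n - 1 ∧ n - 1 ≤ a + b)
    (hT : Tri r c (-(r + c + n)) fun a b _ => R a b) :
    ∃ M : ZMod n → ZMod n → ZMod n, IsLatin M ∧
      (∀ a b : ℕ, a < n → b < n → ¬ ((a : ℤ) = r ∧ (b : ℤ) = c) → ¬ R a b → M a b = a + b) ∧
      M ≠ fun r k => r + k := by
  obtain ⟨p', q', t', l1, l2, π, τ, g1, g2, g3⟩ := hT
  set φ : ℤ × ℤ × ℤ → ZMod n × ZMod n × ZMod n :=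
    fun t => ((t.1 : ZMod n), (t.2.1 : ZMod n), ((-t.2.2 : ℤ) : ZMod n)) with hφ
  have hm : ∀ p ∈ (r, c, -(r + c + n)) ::ₘ π, p = (r, c, -(r + c + n)) ∨
      (p.1 + p.2.1 + p.2.2 = 0 ∧ R p.1 p.2.1 ∧ p.1 ≤ n - 1 ∧ p.2.1 ≤ n - 1 ∧
        n - 1 ≤ p.1 + p.2.1) := fun p hp =>
    (Multiset.mem_cons.1 hp).imp id fun hp => ⟨(g2 p hp).1, (g2 p hp).2, hR _ _ (g2 p hp).2⟩
  obtain ⟨M, hM, hag, hM'⟩ := trade (((r, c, -(r + c + n)) ::ₘ π).map φ)
    (((p', q', t') ::ₘ τ).map φ)
    (fun F G K => by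
      have := g3 (fun x y => F x y) (fun x z => G x ((-z : ℤ) : ZMod n))
        (fun y z => K y ((-z : ℤ) : ZMod n))
      simp only [val] at this
      simp only [Multiset.map_map, Function.comp_def, Multiset.map_cons, Multiset.sum_cons, hφ]
      rw [this]; ring)
    (by
      intro p hp
      obtain ⟨t, ht, rfl⟩ := Multiset.mem_map.1 hp
      rcases hm t ht with rfl | ht
      · simp [hφ]
      · simp only [hφ]
        rw [show -t.2.2 = t.1 + t.2.1 by omega]; push_cast; rfl)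
    (by
      refine Multiset.Nodup.map_on (fun p hp q hq e => ?_) ?_
      · simp only [hφ, Prod.mk.injEq] at e
        rcases hm p hp with rfl | hp <;> rcases hm q hq with rfl | hq
        · rfl
        · have e1 := cast_inj e.1 (by simp only; omega) (by simp only; omega)
          have e2 := cast_inj e.2.1 (by simp only; omega) (by simp only; omega)
          simp only at e1 e2
          omega
        · have e1 := cast_inj e.1 (by simp only; omega) (by simp only; omega)
          have e2 := cast_inj e.2.1 (by simp only; omega) (by simp only; omega)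
          simp only at e1 e2
          omega
        · have e1 := cast_inj e.1 (by omega) (by omega)
          have e2 := cast_inj e.2.1 (by omega) (by omega)
          exact Prod.ext e1 (Prod.ext e2 (by omega))
      · refine Multiset.nodup_cons.2 ⟨fun hx => ?_, g1⟩
        have := hR _ _ (g2 _ hx).2
        simp only at this
        omega)
    (φ (p', q', t')) (Multiset.mem_map_of_mem _ (Multiset.mem_cons_self _ _))
    (by
      simp only [hφ]
      intro e
      have := cast_inj (n := n) (a := -t') (b := p' + q') (by rw [e]; push_cast; rfl) (by omega)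
        (by omega)
      omega)
  refine ⟨M, hM, fun a b ha hb h2 h3 => hag a b fun hp => ?_, hM'⟩
  obtain ⟨t, ht, e⟩ := Multiset.mem_map.1 hp
  simp only [hφ, Prod.mk.injEq] at e
  have ea : (t.1 : ZMod n) = ((a : ℤ) : ZMod n) := by rw [e.1]; simp
  have eb : (t.2.1 : ZMod n) = ((b : ℤ) : ZMod n) := by rw [e.2.1]; simp
  rcases hm t ht with rfl | ht
  · exact h2 ⟨(cast_inj ea (by simp only; omega) (by simp only; omega)).symm,
      (cast_inj eb (by simp only; omega) (by simp only; omega)).symm⟩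
  · have e1 := cast_inj ea (by omega) (by omega)
    have e2 := cast_inj eb (by omega) (by omega)
    exact h3 (e1 ▸ e2 ▸ ht.2.1)

/-- A latin square read on natural numbers. -/
structure Lat (n : ℕ) (m : ℕ → ℕ → ℕ) : Prop where
  lt : ∀ a b, m a b < n
  R : ∀ a b b', b < n → b' < n → b ≠ b' → m a b ≠ m a b'
  C : ∀ a a' b, a < n → a' < n → a ≠ a' → m a b ≠ m a' b
  S : ∀ b s, s < n → ∃ a, a < n ∧ m a b = s

theorem nat_inj {n a b : ℕ} (h : (a : ZMod n) = b) (ha : a < n) (hb : b < n) : a = b := by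
  have := congrArg ZMod.val h
  rwa [ZMod.val_cast_of_lt ha, ZMod.val_cast_of_lt hb] at this

theorem lat_of {n : ℕ} [NeZero n] {M : ZMod n → ZMod n → ZMod n} (hM : IsLatin M) :
    Lat n fun a b => (M a b).val where
  lt := fun _ _ => ZMod.val_lt _
  R := fun a _ _ h1 h2 h3 e => h3 (nat_inj ((hM.1 a).1 (ZMod.val_injective n e)) h1 h2)
  C := fun _ _ b h1 h2 h3 e => h3 (nat_inj ((hM.2 b).1 (ZMod.val_injective n e)) h1 h2)
  S := fun b s hs => by
    obtain ⟨a, ha⟩ := (hM.2 b).2 s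
    exact ⟨a.val, ZMod.val_lt _, by
      simp only [ZMod.natCast_val, ZMod.cast_id', id] at ha ⊢
      rw [ha, ZMod.val_cast_of_lt hs]⟩

theorem ucP {n : ℕ} {m : ℕ → ℕ → ℕ} (hn : 8 ≤ n) (L : Lat n m)
    (F : ∀ a b, a + b + 2 ≤ n → ¬ (a = 0 ∧ b = 0) → ¬ (a = n - 4 ∧ b = 2) → m a b = a + b)
    (h44 : m (n - 4) 4 = 0) (h45 : m (n - 4) 5 = 1) (h33 : m (n - 3) 3 = 0) :
    m 0 0 = 0 ∧ m (n - 4) 2 = n - 2 := by
  have c1 : ∀ a, n - 2 ≤ a → a < n → m a 1 = 0 ∨ m a 1 = n - 1 := fun a h1 h2 => by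
    by_contra h
    have := L.lt a 1
    have := L.C a (m a 1 - 1) 1 h2 (by omega) (by omega)
    rw [F (m a 1 - 1) 1 (by omega) (by omega) (by omega)] at this
    omega
  have c0 : m (n - 1) 0 = 0 ∨ m (n - 1) 0 = n - 1 := by
    by_contra h
    have := L.lt (n - 1) 0
    have := L.C (n - 1) (m (n - 1) 0) 0 (by omega) (by omega) (by omega)
    rw [F (m (n - 1) 0) 0 (by omega) (by omega) (by omega)] at this
    omega
  have r0 : m 0 0 = 0 ∨ m 0 0 = n - 1 := by
    by_contra h
    have := L.lt 0 0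
    have := L.R 0 0 (m 0 0) (by omega) (by omega) (by omega)
    rw [F 0 (m 0 0) (by omega) (by omega) (by omega)] at this
    omega
  have k1 := c1 (n - 1) (by omega) (by omega)
  have k2 := c1 (n - 2) (by omega) (by omega)
  have k3 := L.C 0 (n - 1) 0 (by omega) (by omega) (by omega)
  have k4 := L.R (n - 1) 0 1 (by omega) (by omega) (by omega)
  have k5 := L.C (n - 1) (n - 2) 1 (by omega) (by omega) (by omega)
  have z : m 0 0 = 0 := by
    by_contra h
    obtain ⟨a, ha, e⟩ := L.S 2 0 (by omega)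
    have := L.R (n - 1) 0 2 (by omega) (by omega) (by omega)
    have := L.R (n - 2) 1 2 (by omega) (by omega) (by omega)
    have := L.R (n - 3) 3 2 (by omega) (by omega) (by omega)
    have := L.R (n - 4) 4 2 (by omega) (by omega) (by omega)
    by_cases h5 : a + 5 ≤ n
    · rw [F a 2 (by omega) (by omega) (by omega)] at e
      omega
    · obtain rfl | rfl | rfl | rfl : a = n - 1 ∨ a = n - 2 ∨ a = n - 3 ∨ a = n - 4 := by omega
      all_goals omega
  have y : m (n - 4) 3 = n - 1 := by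
    obtain ⟨a, ha, e⟩ := L.S 3 (n - 1) (by omega)
    have := L.R (n - 1) 0 3 (by omega) (by omega) (by omega)
    have := L.R (n - 2) 1 3 (by omega) (by omega) (by omega)
    by_cases h5 : a + 5 ≤ n
    · rw [F a 3 (by omega) (by omega) (by omega)] at e
      omega
    · obtain rfl | rfl | rfl | rfl : a = n - 1 ∨ a = n - 2 ∨ a = n - 3 ∨ a = n - 4 := by omega
      all_goals omega
  refine ⟨z, ?_⟩
  by_contra h
  have := L.lt (n - 4) 2
  have := L.R (n - 4) 2 3 (by omega) (by omega) (by omega)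
  have := L.R (n - 4) 2 4 (by omega) (by omega) (by omega)
  have := L.R (n - 4) 2 5 (by omega) (by omega) (by omega)
  have := L.C (n - 4) (m (n - 4) 2 - 2) 2 (by omega) (by omega) (by omega)
  rw [F (m (n - 4) 2 - 2) 2 (by omega) (by omega) (by omega)] at this
  omega

theorem ucQ {n : ℕ} {m : ℕ → ℕ → ℕ} (hn : 6 ≤ n) (L : Lat n m)
    (F : ∀ a b, a + b + 2 ≤ n → ¬ (a = 0 ∧ b = 0) → ¬ (a = 0 ∧ b = 2) → m a b = a + b)
    (h1 : m 1 (n - 2) = n - 1) (h2 : m 3 (n - 4) = n - 1) (h3 : m 3 (n - 2) = 1) :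
    m 0 0 = 0 ∧ m 0 2 = 2 := by
  have k1 : m 1 (n - 1) = 0 := by
    by_contra h
    have := L.lt 1 (n - 1)
    have := L.R 1 (n - 1) (n - 2) (by omega) (by omega) (by omega)
    have := L.R 1 (n - 1) (m 1 (n - 1) - 1) (by omega) (by omega) (by omega)
    rw [F 1 (m 1 (n - 1) - 1) (by omega) (by omega) (by omega)] at this
    omega
  have r0 : ∀ b, b = 0 ∨ b = 2 ∨ b = n - 1 → m 0 b = 0 ∨ m 0 b = 2 ∨ m 0 b = n - 1 := fun b hb => by
    by_contra h
    have := L.lt 0 b
    have := L.R 0 b (m 0 b) (by omega) (by omega) (by omega)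
    rw [F 0 (m 0 b) (by omega) (by omega) (by omega)] at this
    omega
  have r3 : m 3 (n - 1) = 0 ∨ m 3 (n - 1) = 2 := by
    by_contra h
    have := L.lt 3 (n - 1)
    have := L.R 3 (n - 1) (n - 2) (by omega) (by omega) (by omega)
    have := L.R 3 (n - 1) (n - 4) (by omega) (by omega) (by omega)
    have := L.R 3 (n - 1) (m 3 (n - 1) - 3) (by omega) (by omega) (by omega)
    rw [F 3 (m 3 (n - 1) - 3) (by omega) (by omega) (by omega)] at this
    omega
  have := r0 0 (by omega)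
  have := r0 2 (by omega)
  have := r0 (n - 1) (by omega)
  have := L.C 0 1 (n - 1) (by omega) (by omega) (by omega)
  have := L.C 0 3 (n - 1) (by omega) (by omega) (by omega)
  have := L.C 1 3 (n - 1) (by omega) (by omega) (by omega)
  have := L.C 0 2 0 (by omega) (by omega) (by omega)
  have := F 2 0 (by omega) (by omega) (by omega)
  have := L.R 0 0 2 (by omega) (by omega) (by omega)
  have := L.R 0 0 (n - 1) (by omega) (by omega) (by omega)
  have := L.R 0 2 (n - 1) (by omega) (by omega) (by omega)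
  omega

/-- The upper left triangle forces the cyclic square. -/
theorem tri_uc {n : ℕ} [NeZero n] {M : ZMod n → ZMod n → ZMod n} (hM : IsLatin M)
    (h : ∀ a b : ℕ, a + b + 2 ≤ n → (M a b).val = a + b) : M = fun r k => r + k := by
  refine rigid (fun r => (r.val : ℤ)) (fun r => (r.val : ℤ))
    (fun s => if s.val + 1 = n then (s.val : ℤ) else s.val + n) (fun s t e => ?_) hM
    fun r k hne => ?_
  · have := ZMod.val_lt s
    have := ZMod.val_lt t
    apply ZMod.val_injective n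
    simp only at e
    split_ifs at e <;> omega
  · have h1 := ZMod.val_lt r
    have h2 := ZMod.val_lt k
    have h3 : r.val + k.val + 2 ≤ n := by
      by_contra h4
      apply hne
      rcases lt_or_ge (r.val + k.val) n with h5 | h5
      · rw [ZMod.val_add_of_lt h5, if_pos (by omega)]; push_cast; rfl
      · have := ZMod.val_add_val_of_le h5
        rw [if_neg (by omega)]; omega
    have := h r.val k.val h3
    simp only [ZMod.natCast_val, ZMod.cast_id', id] at this
    apply ZMod.val_injective n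
    rw [this, ZMod.val_add_of_lt (by omega)]

/-- The triangle with two cells removed and three cells added. -/
def InX (n : ℕ) (b1 b2 a1 a2 a3 c : ℕ × ℕ) : Prop :=
  (c.1 + c.2 + 2 ≤ n ∧ c ≠ b1 ∧ c ≠ b2) ∨ c = a1 ∨ c = a2 ∨ c = a3

instance (n : ℕ) (b1 b2 a1 a2 a3 c : ℕ × ℕ) : Decidable (InX n b1 b2 a1 a2 a3 c) := by
  unfold InX; infer_instance

theorem final (n : ℕ) [NeZero n] (b1 b2 a1 a2 a3 : ℕ × ℕ)
    (hA : ∀ c, c = a1 ∨ c = a2 ∨ c = a3 → c.1 < n ∧ c.2 < n ∧ n < c.1 + c.2 + 2)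
    (h12 : a1 ≠ a2) (h13 : a1 ≠ a3) (h23 : a2 ≠ a3)
    (hU : ∀ M : ZMod n → ZMod n → ZMod n, IsLatin M →
      (∀ c, InX n b1 b2 a1 a2 a3 c → M c.1 c.2 = c.1 + c.2) → M = fun r k => r + k)
    (hm : ∀ x, InX n b1 b2 a1 a2 a3 x → ∃ M : ZMod n → ZMod n → ZMod n, IsLatin M ∧
      (∀ c, InX n b1 b2 a1 a2 a3 c → c ≠ x → M c.1 c.2 = c.1 + c.2) ∧ M ≠ fun r k => r + k) :
    ∃ S : Finset (ZMod n × ZMod n), Critical S ∧ n * (n - 1) / 2 < S.card := by
  classical
  let T : Finset (ℕ × ℕ) :=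
    (Finset.range (n - 1)).biUnion Finset.HasAntidiagonal.antidiagonal
  have hT : ∀ c, c ∈ T ↔ c.1 + c.2 + 2 ≤ n := fun c => by
    simp only [T, Finset.mem_biUnion, Finset.mem_range, Finset.HasAntidiagonal.mem_antidiagonal]
    exact ⟨fun ⟨_, h1, h2⟩ => by omega, fun h => ⟨c.1 + c.2, by omega, rfl⟩⟩
  have cT : T.card = n * (n - 1) / 2 := by
    rw [Finset.card_biUnion, ← Finset.sum_range_id]
    · obtain ⟨k, rfl⟩ := Nat.exists_eq_succ_of_ne_zero (NeZero.ne n)
      rw [Finset.sum_range_succ']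
      simp
    · intro i _ j _ hij
      exact Finset.disjoint_left.2 fun c h1 h2 => hij
        ((Finset.HasAntidiagonal.mem_antidiagonal.1 h1).symm.trans
          (Finset.HasAntidiagonal.mem_antidiagonal.1 h2))
  let X : Finset (ℕ × ℕ) := T \ {b1, b2} ∪ {a1, a2, a3}
  have hX : ∀ c, c ∈ X ↔ InX n b1 b2 a1 a2 a3 c := fun c => by
    simp only [X, InX, Finset.mem_union, Finset.mem_sdiff, hT, Finset.mem_insert,
      Finset.mem_singleton, not_or, ne_eq]
  have cX : n * (n - 1) / 2 < X.card := by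
    have h1 := Finset.le_card_sdiff {b1, b2} T
    have h2 : ({b1, b2} : Finset (ℕ × ℕ)).card ≤ 2 := Finset.card_le_two
    have h3 : ({a1, a2, a3} : Finset (ℕ × ℕ)).card = 3 := Finset.card_eq_three.2
      ⟨_, _, _, h12, h13, h23, rfl⟩
    rw [Finset.card_union_of_disjoint]
    · omega
    · refine Finset.disjoint_left.2 fun c k1 k2 => ?_
      have := (hT c).1 (Finset.mem_sdiff.1 k1).1
      have := hA c (by simpa using k2)
      omega
  have lt : ∀ c ∈ X, c.1 < n ∧ c.2 < n := fun c hc => by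
    rcases (hX c).1 hc with h | h
    · omega
    · have := hA c h
      omega
  let f : ℕ × ℕ → ZMod n × ZMod n := fun c => (c.1, c.2)
  have inj : Set.InjOn f X := fun c hc d hd e =>
    Prod.ext (nat_inj (congrArg Prod.fst e) (lt c hc).1 (lt d hd).1)
      (nat_inj (congrArg Prod.snd e) (lt c hc).2 (lt d hd).2)
  obtain ⟨S, hS, hin⟩ := exists_critical (X.image f) fun M hM h =>
    hU M hM fun c hc => h (f c) (Finset.mem_image_of_mem _ ((hX c).2 hc))
  refine ⟨S, hS, cX.trans_le ?_⟩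
  rw [← Finset.card_image_of_injOn inj]
  refine Finset.card_le_card fun y hy => hin y hy ?_
  obtain ⟨x, hx, rfl⟩ := Finset.mem_image.1 hy
  obtain ⟨M, hM, h1, h2⟩ := hm x ((hX x).1 hx)
  refine ⟨M, hM, fun c hc hne => ?_, h2⟩
  obtain ⟨d, hd, rfl⟩ := Finset.mem_image.1 hc
  exact h1 d ((hX d).1 hd) fun e => hne (e ▸ rfl)

end Pool.Agent.Lib.H62Crit
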