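import Pool.Agent.Lib.MP_e1ba52_h76.Til

set_option autoImplicit false

namespace Pool.Agent.Lib.H62Crit

open Pool.Agent.Lib.H76Crit

/-- A trapezoid between two parallel lines, with one obtuse corner absorbed. -/
def TD (y y1 t h : ℤ) : Df := fun F G K =>
  K y1 (t + h) + G (-y - t) (t + h) + F (-y - t) y + K y t - K y1 t

/-- The points a dissection of the trapezoid may use. -/
def Cl (y y' y1 t h b c : ℤ) : Prop :=
  (y' ≤ b ∧ b ≤ y1 ∧ t ≤ c ∧ c ≤ t + h) ∨ ((b = y ∨ b = y + h) ∧ b < y' ∧ (c = t ∨ c = t + h))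

theorem par (y y1 t t1 : ℤ) (h1 : y < y1) (h2 : t < t1) :
    Good (par23 y y1 t t1) (fun _ b c => box y y1 t t1 b c) :=
  (euclid (y1 - y + (t1 - t)).toNat y t (y1 - y) (t1 - t) (by omega) (by omega)
    (by omega)).swap23.swap12.conv (fun F G K => by simp only [par12, par23]; ring_nf)
    (fun a b c _ h => by unfold box at h ⊢; omega)

theorem td0 (y y1 t h : ℤ) (h0 : 0 < h) (h1 : y ≤ y1) : Good (TD y y1 t h) fun _ b c =>
    y ≤ b ∧ b ≤ y1 ∧ t ≤ c ∧ c ≤ t + h ∧ ¬ (b = y1 ∧ c = t + h) ∧ ¬ (b = y ∧ c = t) := by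
  rcases h1.eq_or_lt with rfl | h1
  · exact (good_zero.tile (-y - t) y (t + h)).conv (fun F G K => by simp only [val, TD]; ring)
      fun _ _ _ _ k => k.elim
  · exact ((((par y y1 t (t + h) h1 (by omega)).tile (-y - t) y (t + h)).absorb (-y - t - h) y
      (t + h) (by ring) (by unfold box; omega)).absorb (-y1 - t) y1 t (by ring)
      (by unfold box; omega)).conv (fun F G K => by simp only [val, TD, par23]; ring_nf)
      fun a b c _ k => by unfold box at k; omega

theorem peel {y y1 t h : ℤ} {R : ℤ → ℤ → ℤ → Prop} (h0 : 0 < h) (k : Good (TD (y + h) y1 t h) R)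
    (hR : ∀ a b c, R a b c → y + h ≤ b ∧ ¬ (b = y + h ∧ c = t)) :
    Good (TD y y1 t h) fun a b c => R a b c ∨ (b = y ∧ c = t + h) ∨ (b = y + h ∧ c = t) :=
  ((((k.tile (-y - t) y (t + h)).tile (-y - t - h) y t).absorb (-y - t - h) y (t + h) (by ring)
    (fun j => by have := hR _ _ _ j; omega)).absorb (-y - t - h) (y + h) t (by ring)
    (fun j => j.elim (fun j => by have := hR _ _ _ j; omega) (by omega))).conv
    (fun F G K => by simp only [val, TD]; ring_nf) fun a b c _ j => by tauto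

theorem td (y y' y1 t h : ℤ) (h0 : 0 < h) (hk : y' = y ∨ y' = y + h ∨ y' = y + 2 * h)
    (h1 : y' ≤ y1) : Good (TD y y1 t h) fun _ b c =>
      Cl y y' y1 t h b c ∧ ¬ (b = y1 ∧ c = t + h) ∧ ¬ (b = y ∧ c = t) := by
  rcases hk with rfl | rfl | rfl
  · exact (td0 _ y1 t h h0 h1).mono fun a b c _ j => by unfold Cl; omega
  · exact (peel h0 (td0 _ y1 t h h0 h1) fun a b c j => by omega).mono
      fun a b c _ j => by unfold Cl; omega
  · exact (peel h0 (peel h0 (td0 (y + h + h) y1 t h h0 (by omega)) fun a b c j => by omega)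
      fun a b c j => by omega).mono fun a b c _ j => by unfold Cl; omega

/-- The triangle with sides `p, q, t` has a proper dissection with vertices in `R`. -/
def Tri (p q t : ℤ) (R : ℤ → ℤ → ℤ → Prop) : Prop :=
  ∃ p' q' t' : ℤ, p + q + t < p' + q' + t' ∧ p' + q' + t' < 0 ∧
    Good (fun F G K => val (p, q, t) F G K - val (p', q', t') F G K) R

theorem Tri.mono {p q t : ℤ} {R R' : ℤ → ℤ → ℤ → Prop} (h : Tri p q t R)
    (k : ∀ a b c, a + b + c = 0 → R a b c → R' a b c) : Tri p q t R' :=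
  let ⟨p', q', t', h1, h2, h3⟩ := h; ⟨p', q', t', h1, h2, h3.mono k⟩

theorem Tri.s12 {p q t : ℤ} {R : ℤ → ℤ → ℤ → Prop} (h : Tri p q t R) :
    Tri q p t fun a b c => R b a c :=
  let ⟨p', q', t', h1, h2, h3⟩ := h
  ⟨q', p', t', by omega, by omega, h3.swap12.conv (fun F G K => by simp only [val]; ring)
    fun _ _ _ _ k => k⟩

theorem Tri.s23 {p q t : ℤ} {R : ℤ → ℤ → ℤ → Prop} (h : Tri p q t R) :
    Tri p t q fun a b c => R a c b :=
  let ⟨p', q', t', h1, h2, h3⟩ := h
  ⟨p', t', q', by omega, by omega, h3.swap23.conv (fun F G K => by simp only [val]; ring)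
    fun _ _ _ _ k => k⟩

theorem trap (p q t h y' : ℤ) (h0 : 0 < h)
    (hk : y' = q + h ∨ y' = q + h + h ∨ y' = q + h + 2 * h) (h1 : y' ≤ -p - t - h) :
    Tri p q t fun _ b c => (b = q ∧ c = t + h) ∨ Cl (q + h) y' (-p - t - h) t h b c :=
  ⟨p, q, t + h, by omega, by omega,
    ((((((td (q + h) y' (-p - t - h) t h h0 hk h1).tile p (-p - t - h) t).tile (-q - t - h) q t).absorb
      p (-p - t - h) (t + h) (by ring) (by omega)).absorb (-q - t - h) (q + h) t (by ring)
      (by omega)).absorb (-q - t - h) q (t + h) (by ring) (by unfold Cl; omega)).conv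
      (fun F G K => by simp only [val, TD]; ring_nf) fun a b c _ j => by unfold Cl at j ⊢; omega⟩

theorem hex (p q t h e y' : ℤ) (h0 : 0 < e) (he : e < h)
    (hk : y' = q + e + h ∨ y' = q + e + h + h ∨ y' = q + e + h + 2 * h) (h1 : y' ≤ -p - t - h) :
    Tri p q t fun _ b c => (b = q + e ∧ c = t) ∨ (q ≤ b ∧ b ≤ q + e ∧ t + e ≤ c ∧ c ≤ t + h) ∨
      Cl (q + e + h) y' (-p - t - h) t h b c := by
  have k1 := (td (q + e + h) y' (-p - t - h) t h (by omega) hk h1).glue
    (par q (q + e) (t + e) (t + h) (by omega) (by omega))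
    (fun a b c _ j j' => by unfold Cl at j; unfold box at j'; omega)
  have k2 := (((k1.tile p (-p - t - h) t).tile (-q - t - e) q t).tile (-q - t - e) (q + e)
    (t + e)).tile (-q - e - t - h) (q + e) t
  have k3 := (((k2.absorb p (-p - t - h) (t + h) (by ring) (by unfold box; omega)).absorb
    (-q - e - h - t) (q + e + h) t (by ring) (by unfold box; omega)).absorb
    (-q - e - t) (q + e) t (by ring) (by unfold box Cl; omega)).absorb
    (-q - t - e) q (t + e) (by ring) (by unfold box Cl; omega)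
  have k4 := ((k3.absorb (-q - t - h) q (t + h) (by ring) (by unfold box Cl; omega)).absorb
    (-q - e - t - e) (q + e) (t + e) (by ring) (by unfold box Cl; omega)).absorb
    (-q - e - t - h) (q + e) (t + h) (by ring) (by unfold box Cl; omega)
  exact ⟨p, q, t + h, by omega, by omega, k4.conv
    (fun F G K => by simp only [val, TD, par23]; ring_nf)
    fun a b c _ j => by unfold box Cl at j; unfold Cl; omega⟩

end Pool.Agent.Lib.H62Crit
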