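import Pool.Agent.Lib.MP_e1ba52_h62.Glue

set_option autoImplicit false

namespace Pool.Agent.Lib.H62Crit

open Pool.Agent.Lib.H76Crit

theorem large (n : ℕ) (hn : 9 ≤ n) :
    ∃ S : Finset (ZMod n × ZMod n), Critical S ∧ n * (n - 1) / 2 < S.card := by
  have : NeZero n := ⟨by omega⟩
  have hz : (9 : ℤ) ≤ n := by omega
  refine final n (0, 0) (n - 4, 2) (n - 4, 4) (n - 4, 5) (n - 3, 3) ?_ (by simp) (by simp)
    (by simp) (fun M hM h => ?_) ?_
  · rintro c (rfl | rfl | rfl) <;> simp only <;> omega
  · have v : ∀ a b s : ℕ, InX n (0, 0) (n - 4, 2) (n - 4, 4) (n - 4, 5) (n - 3, 3) (a, b) →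
        s < n → (a + b = s ∨ a + b = s + n) → (M a b).val = s := fun a b s k1 k2 k3 => by
      rw [h _ k1, ← Nat.cast_add]
      rcases k3 with k3 | k3 <;> rw [k3]
      · exact ZMod.val_cast_of_lt k2
      · rw [Nat.cast_add, ZMod.natCast_self, add_zero, ZMod.val_cast_of_lt k2]
    have F : ∀ a b : ℕ, a + b + 2 ≤ n → ¬ (a = 0 ∧ b = 0) → ¬ (a = n - 4 ∧ b = 2) →
        (M a b).val = a + b := fun a b k1 k2 k3 =>
      v a b _ (Or.inl ⟨k1, by simpa using k2, by simpa using k3⟩) (by omega) (Or.inl rfl)
    obtain ⟨u1, u2⟩ := ucP (by omega) (lat_of hM) F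
      (v _ _ _ (Or.inr (Or.inl rfl)) (by omega) (by omega))
      (v _ _ _ (Or.inr (Or.inr (Or.inl rfl))) (by omega) (by omega))
      (v _ _ _ (Or.inr (Or.inr (Or.inr rfl))) (by omega) (by omega))
    refine tri_uc hM fun a b k => ?_
    by_cases k2 : a = 0 ∧ b = 0
    · obtain ⟨rfl, rfl⟩ := k2
      exact u1
    · by_cases k3 : a = n - 4 ∧ b = 2
      · obtain ⟨rfl, rfl⟩ := k3
        exact u2.trans (by omega)
      · exact F a b k k2 k3
  · have use : ∀ (x : ℕ × ℕ) (r c : ℤ) (R : ℤ → ℤ → Prop), 0 ≤ r → 0 ≤ c → r + c ≤ n - 2 →
        (∀ a b, R a b → WA n a b ∨ (a = x.1 ∧ b = x.2 ∧ x.1 < n ∧ x.2 < n ∧ n < x.1 + x.2 + 2)) →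
        ((r = x.1 ∧ c = x.2) ∨ (r = n - 4 ∧ c = 2)) →
        (Tri r c (-(r + c + n)) fun a b _ => R a b) →
        ∃ M : ZMod n → ZMod n → ZMod n, IsLatin M ∧
          (∀ c, InX n (0, 0) (n - 4, 2) (n - 4, 4) (n - 4, 5) (n - 3, 3) c → c ≠ x →
            M c.1 c.2 = c.1 + c.2) ∧ M ≠ fun r k => r + k := by
      rintro ⟨x, y⟩ r c R k1 k2 k3 k4 k5 k6
      obtain ⟨M, hM, h1, h2⟩ := sat r c R k1 k2 k3
        (fun a b k => by have := k4 a b k; unfold WA at this; simp only at this; omega) k6
      refine ⟨M, hM, ?_, h2⟩
      rintro ⟨a, b⟩ h3 h4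
      simp only [InX, ne_eq, Prod.mk.injEq] at h3 h4 k5
      refine h1 a b (by omega) (by omega) (by omega) fun k => ?_
      have := k4 a b k
      unfold WA at this
      simp only at this
      omega
    rintro ⟨a, b⟩ (⟨k1, k2, k3⟩ | e | e | e)
    · simp only [ne_eq, Prod.mk.injEq] at k1 k2 k3
      exact use _ a b (WA n) (by omega) (by omega) (by omega) (fun _ _ k => Or.inl k)
        (Or.inl ⟨rfl, rfl⟩) (cover n a b hz (by omega) (by omega) (by omega) (by omega) (by omega))
    · rw [e]
      exact use _ _ _ _ (by omega) (by omega) (by omega)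
        (fun _ _ k => k.imp id fun k => by simp only; omega) (Or.inr ⟨rfl, rfl⟩) (cover_a2 n hz)
    · rw [e]
      exact use _ _ _ _ (by omega) (by omega) (by omega)
        (fun _ _ k => k.imp id fun k => by simp only; omega) (Or.inr ⟨rfl, rfl⟩) (cover_a1 n hz)
    · rw [e]
      exact use _ _ _ _ (by omega) (by omega) (by omega)
        (fun _ _ k => k.imp id fun k => by simp only; omega) (Or.inr ⟨rfl, rfl⟩) (cover_a3 n hz)

/-- The entry `(a, b)` of the square listed for the cell `(x, y)`. -/
def ent (n : ℕ) (t : List ℕ) (x y a b : ℕ) : ℕ := t.getD (x * n + y) 0 / n ^ (a * n + b) % n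

/-- No repetition in a line. -/
def Inj (n : ℕ) (f : ℕ → ℕ → ℕ) : Prop := ∀ a < n, ∀ b < n, ∀ b' < n, f a b = f a b' → b = b'

instance (n : ℕ) (f : ℕ → ℕ → ℕ) : Decidable (Inj n f) := by unfold Inj; infer_instance

/-- Agreement with the cyclic square on the second pattern without the cell `(x, y)`. -/
def Agr (n x y : ℕ) (f : ℕ → ℕ → ℕ) : Prop := ∀ a < n, ∀ b < n,
  InX n (0, 0) (0, 2) (1, n - 2) (3, n - 4) (3, n - 2) (a, b) → (a, b) ≠ (x, y) →
    f a b = (a + b) % n

instance (n x y : ℕ) (f : ℕ → ℕ → ℕ) : Decidable (Agr n x y f) := by unfold Agr; infer_instance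

/-- The list `t` gives a second completion for each cell of the second pattern. -/
def Chk (n : ℕ) (t : List ℕ) : Prop := ∀ x < n, ∀ y < n,
  InX n (0, 0) (0, 2) (1, n - 2) (3, n - 4) (3, n - 2) (x, y) →
    Inj n (ent n t x y) ∧ Inj n (fun a b => ent n t x y b a) ∧ Agr n x y (ent n t x y) ∧
      ent n t x y x y ≠ (x + y) % n

instance (n : ℕ) (t : List ℕ) : Decidable (Chk n t) := by unfold Chk; infer_instance

theorem small (n : ℕ) (hn : 6 ≤ n) (t : List ℕ) (ht : Chk n t) :
    ∃ S : Finset (ZMod n × ZMod n), Critical S ∧ n * (n - 1) / 2 < S.card := by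
  have : NeZero n := ⟨by omega⟩
  refine final n (0, 0) (0, 2) (1, n - 2) (3, n - 4) (3, n - 2) ?_ (by simp)
    (by simp) (by simp only [ne_eq, Prod.mk.injEq]; omega) (fun M hM h => ?_) ?_
  · rintro c (rfl | rfl | rfl) <;> simp only <;> omega
  · have v : ∀ a b s : ℕ, InX n (0, 0) (0, 2) (1, n - 2) (3, n - 4) (3, n - 2) (a, b) →
        s < n → (a + b = s ∨ a + b = s + n) → (M a b).val = s := fun a b s k1 k2 k3 => by
      rw [h _ k1, ← Nat.cast_add]
      rcases k3 with k3 | k3 <;> rw [k3]
      · exact ZMod.val_cast_of_lt k2
      · rw [Nat.cast_add, ZMod.natCast_self, add_zero, ZMod.val_cast_of_lt k2]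
    have F : ∀ a b : ℕ, a + b + 2 ≤ n → ¬ (a = 0 ∧ b = 0) → ¬ (a = 0 ∧ b = 2) →
        (M a b).val = a + b := fun a b k1 k2 k3 =>
      v a b _ (Or.inl ⟨k1, by simpa using k2, by simpa using k3⟩) (by omega) (Or.inl rfl)
    obtain ⟨u1, u2⟩ := ucQ hn (lat_of hM) F
      (v _ _ _ (Or.inr (Or.inl rfl)) (by omega) (by omega))
      (v _ _ _ (Or.inr (Or.inr (Or.inl rfl))) (by omega) (by omega))
      (v _ _ _ (Or.inr (Or.inr (Or.inr rfl))) (by omega) (by omega))
    refine tri_uc hM fun a b k => ?_
    by_cases k2 : a = 0 ∧ b = 0
    · obtain ⟨rfl, rfl⟩ := k2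
      exact u1
    · by_cases k3 : a = 0 ∧ b = 2
      · obtain ⟨rfl, rfl⟩ := k3
        exact u2
      · exact F a b k k2 k3
  · have lt : ∀ a b, InX n (0, 0) (0, 2) (1, n - 2) (3, n - 4) (3, n - 2) (a, b) →
        a < n ∧ b < n := fun a b k => by
      simp only [InX, ne_eq, Prod.mk.injEq] at k
      omega
    have el : ∀ x y a b, ent n t x y a b < n := fun _ _ _ _ => Nat.mod_lt _ (by omega)
    rintro ⟨x, y⟩ hx
    obtain ⟨hx1, hx2⟩ := lt x y hx
    obtain ⟨k1, k2, k3, k4⟩ := ht x hx1 y hx2 hx
    refine ⟨fun a b => (ent n t x y a.val b.val : ZMod n),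
      ⟨fun a => Finite.injective_iff_bijective.1 fun b b' e => ZMod.val_injective n
        (k1 _ a.val_lt _ b.val_lt _ b'.val_lt (nat_inj e (el _ _ _ _) (el _ _ _ _))),
      fun a => Finite.injective_iff_bijective.1 fun b b' e => ZMod.val_injective n
        (k2 _ a.val_lt _ b.val_lt _ b'.val_lt (nat_inj e (el _ _ _ _) (el _ _ _ _)))⟩, ?_,
      fun e => k4 ?_⟩
    · rintro ⟨a, b⟩ h1 h2
      obtain ⟨ha, hb⟩ := lt a b h1
      simp only [ZMod.val_cast_of_lt ha, ZMod.val_cast_of_lt hb]
      rw [k3 a ha b hb h1 h2, ZMod.natCast_mod, Nat.cast_add]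
    · have := congrFun (congrFun e x) y
      simp only [ZMod.val_cast_of_lt hx1, ZMod.val_cast_of_lt hx2] at this
      rw [← Nat.cast_add, ← ZMod.natCast_mod (x + y)] at this
      exact nat_inj this (el _ _ _ _) (Nat.mod_lt _ (by omega))

/-- Second completions for order 6, written in base 6. -/
def tab6 : List ℕ :=
  [0, 7833882472867765275502077390, 0, 7601684207895240874399409190, 6413415158879422517603776115,
  0, 7758717338627129389352461715, 7747659520249262556115239990, 7522060921724152431426241590,
  4497872900354482195674375990, 7806248231367032991176591315, 0, 7790773058522155040789204790,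
  7840440913861915781466529590, 2707174152152179084987604790, 0, 0, 0,
  7464621647984809078881551315, 4312170810945549626882055990, 7800716412003967986462786690, 0,
  7806248232025197931074421715, 0, 5785672527517880248285191990, 0, 0, 0, 0, 0, 0, 0, 0, 0, 0, 0]

/-- Second completions for order 7, written in base 7. -/
def tab7 : List ℕ :=
  [0, 206968711002933329893069948575854615678691, 0, 206876990719481830698805918776143564271159,
  206968661919290429862490722792474731314551, 175416922618117016656206924613078542430779, 0,
  207043582888539126430026644837744188721211, 206850783387854565328997711552469482637687,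
  205501182205293934074462270428910831706707, 196696009229486352355219779010208651697363,
  166520019303697286940725946271225439240031, 206968710032399840179693858221115740260703, 0,
  206858271737878678576112382100536359834055, 206012194976169577661782190237748065191935,
  206968577276146773190745207241638748043671, 164593850586367007552981558517231936802275, 0, 0, 0,
  204733727645767252620498913599650720908767, 199486881123669448663713934208265522477615,
  96812744610379918621502653841486608163391, 206876989160367278697562175013522207092007, 0,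
  206968710032399840236019082213359540949651, 0, 196280460646761985875677069387807428614603,
  132059510405050592164602479629052486128611, 0, 0, 0, 0, 0,
  164163505454406194071494323448220114635051, 0, 0, 0, 0, 0, 0, 0, 0, 0, 0, 0, 0, 0]

/-- Second completions for order 8, written in base 8. -/
def tab8 : List ℕ :=
  [0, 5252251214219688078991609899791343791312615564976223602360, 0,
  5250931232620235435582127445925910297078063306858879962760,
  5252104543194574139525485950782624070474407035671500466120,
  5166452329050581461738893160849902474389656997576348255880,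
  4565546506358679534660504830823054573814089831053332760520, 0,
  5251931694945672566205502388576483859979884515906801026575,
  5251895028643983047274020225307684771640528111971117745800,
  5252272164829781083330115132128391515983498743583459690120,
  5228135361529770152470666098768325780208523859019140089480,
  5252272072305594874933181964510917555070366079014227592840,
  3707516655990342080824606973478931815896812715239225869960,
  5252272166198511591456425971757984474395216710648213456840, 0,
  5251908123707395471326043894936168401146271584552769734280,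
  5249192209508607208173599972402873208716125395437477349000,
  5215564109036124990148161758294552203843806547166784833160,
  5140974497250343404295100171310098287716470219903306745480,
  4276072465205386984187530252273926289170725740555085203080, 0, 0, 0,
  5247694135194359255637388226941525267252857216272147596815,
  5203244276496862621339059596603397121040603629050241140360,
  5140304167833790251407072484085376060633304483224933287560,
  2114487546375511526400278392262859773623464150503870088840,
  5252104549588646013322766579461907640246110150275117008840, 0,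
  5252272166198511591456425971766650057769267161451432953800, 0,
  5215488157737768798392619489381405944301067849491757581960,
  4957664864352459995601829225135388652051960558650509674120,
  2896754684089227228788927926173098946851173059869447734920, 0, 0, 0, 0, 0,
  5053190627582530915644775763652261246753411348391496697480,
  3658111638853545156309461040425533608550778557196121327240, 0, 0, 0, 0, 0, 0,
  4355567399097265638401314986241300983260412937789811377800, 0, 0, 0, 0, 0, 0, 0, 0, 0, 0, 0, 0,
  0, 0, 0]

theorem main (n : ℕ) (hn : 6 ≤ n) :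
    ∃ S : Finset (ZMod n × ZMod n), Critical S ∧ n * (n - 1) / 2 < S.card := by
  obtain rfl | rfl | rfl | h : n = 6 ∨ n = 7 ∨ n = 8 ∨ 9 ≤ n := by omega
  · exact small 6 hn tab6 (by decide +kernel)
  · exact small 7 hn tab7 (by decide +kernel)
  · exact small 8 hn tab8 (by decide +kernel)
  · exact large n h

end Pool.Agent.Lib.H62Crit
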